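import Pool.Agent.MWGP.Stmts

/-!
# Block MWGP, row JPG: pairs without empty blocks are join prime
-/

set_option autoImplicit false

namespace Pool.Agent.MWGP.H98

open Pool.Agent.Helper14_MV Pool.Agent.Helper2_MV Pool.Agent.MVO Pool.Agent.MWL Pool.Agent.MWS
  Pool.Agent.MWH

theorem jpg (h1 : MWHP.LrnnStmt) (h2 : MWHP.AboStmt) (h3 : Gd0Stmt) (h4 : D0tStmt)
    (h5 : Jp2Stmt) : JpgStmt := by
  intro n β hβ k a b i hV hGa hGb hai hne
  -- the condition of the criterion
  have key : ∀ s s' : Stt, Vs a b i s → Vs a b i s' → ∀ θ : FIC, β ≤ θ → NC2 θ →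
      ¬ Tr θ k a b i s s' →
        (∀ j ≤ k, ¬ (2 ≤ a j) → ¬ Ab n (FC.ofFIC θ) k a j) ∧
          (∀ j ≤ k, ¬ (2 ≤ b j) → ¬ Ab n (FC.ofFIC θ) k b j) := by
    intro s s' hs hs' θ hθ _ hT
    have hLR : LR n (FC.ofFIC θ) := h1 n β θ hβ.toBasN hθ
    constructor
    · intro j hj hG hA
      rcases Nat.lt_or_ge (a j) 1 with h0 | h0
      · have ha0 : a j = 0 := by omega
        have hb0 : b j ≠ 0 := by
          rcases hne j hj with h | h
          · exact absurd ha0 h
          · exact h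
        have hji : j ≠ i := by
          intro h
          rw [h, hai] at ha0
          exact one_ne_zero ha0
        exact hT (h2 n β θ hβ.toBaseH hθ k a b i hV j hj hji (Or.inl ⟨hb0, hA⟩) s s' hs hs')
      · have ha1 : a j = 1 := by omega
        have hD := (h3 n (FC.ofFIC θ) hLR k a j hGa hV.da hj ha1).1 hA
        exact hT (h4 n β θ hβ hθ hD k a b i hV hGa hGb s s' hs hs')
    · intro j hj hG hA
      rcases Nat.lt_or_ge (b j) 1 with h0 | h0
      · have hb0 : b j = 0 := by omega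
        have ha0 : a j ≠ 0 := by
          rcases hne j hj with h | h
          · exact h
          · exact absurd hb0 h
        have hji : j ≠ i := by
          intro h
          rw [h] at hb0
          exact hV.bi hb0
        exact hT (h2 n β θ hβ.toBaseH hθ k a b i hV j hj hji (Or.inr ⟨ha0, hA⟩) s s' hs hs')
      · have hb1 : b j = 1 := by omega
        have hD := (h3 n (FC.ofFIC θ) hLR k b j hGb hV.db hj hb1).1 hA
        exact hT (h4 n β θ hβ hθ hD k a b i hV hGa hGb s s' hs hs')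
  have app : ∀ s s' : Stt, Vs a b i s → Vs a b i s' →
      ((b i = 1 ∧ s = Stt.xy ∧ s' = Stt.yx) ∨
        (2 ≤ b i ∧ s = Stt.xy ∧ s' = Stt.ov) ∨ (2 ≤ b i ∧ s = Stt.yx ∧ s' = Stt.ov)) →
      JPp β (asm k (W a b i s), asm k (W a b i s')) := by
    intro s s' hs hs' hc
    exact h5 n β hβ.toBaseH k a b i (fun j => 2 ≤ b j) (fun j => 2 ≤ a j) hV hai
      (fun j _ h => h) (fun j _ h => h) s s' hc (key s s' hs hs')
  have vxy : Vs a b i Stt.xy := fun h => nomatch h
  have vyx : Vs a b i Stt.yx := fun h => nomatch h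
  refine ⟨fun hb => app _ _ vxy vyx (Or.inl ⟨hb, rfl, rfl⟩), fun hb => ?_⟩
  have vov : Vs a b i Stt.ov := fun _ => Or.inr hb
  exact ⟨app _ _ vxy vov (Or.inr (Or.inl ⟨hb, rfl, rfl⟩)),
    app _ _ vyx vov (Or.inr (Or.inr ⟨hb, rfl, rfl⟩))⟩

end Pool.Agent.MWGP.H98
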